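import Pool.Agent.LRY.Stmts

set_option autoImplicit false

/-!
# LRY, row CAB: integers of a number field in a box, uniformly in the field (helper85)
-/

namespace Pool.Agent.LRY.H85

open NumberField NumberField.InfinitePlace
open Pool.Agent.LRY

theorem small {E : Type} [Field E] [NumberField E] (x : 𝓞 E)
    (h : ∀ w : InfinitePlace E, w (x : E) < 1) : x = 0 := by
  by_contra hx
  obtain ⟨w⟩ : Nonempty (InfinitePlace E) := inferInstance
  exact absurd (h w) (not_lt.mpr (one_le_of_lt_one hx fun z _ => h z))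

theorem floor_mem {Y t : ℝ} (h : |t| ≤ Y) :
    ⌊2 * t⌋ ∈ Finset.Icc ⌊-(2 * Y)⌋ ⌊2 * Y⌋ := by
  rw [Finset.mem_Icc]
  have h1 := abs_le.mp h
  exact ⟨Int.floor_le_floor (by linarith), Int.floor_le_floor (by linarith)⟩

theorem card_le {Y : ℝ} (hY : 1 ≤ Y) :
    ((Finset.Icc ⌊-(2 * Y)⌋ ⌊2 * Y⌋).card : ℝ) ≤ 7 * Y := by
  rw [Int.card_Icc]
  have h1 : ⌊-(2 * Y)⌋ ≤ ⌊2 * Y⌋ := Int.floor_le_floor (by linarith)
  have h2 : (((⌊2 * Y⌋ + 1 - ⌊-(2 * Y)⌋).toNat : ℤ) : ℝ) =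
      (((⌊2 * Y⌋ + 1 - ⌊-(2 * Y)⌋) : ℤ) : ℝ) := by
    rw [Int.toNat_of_nonneg (by omega)]
  have h3 := Int.floor_le (2 * Y)
  have h4 := Int.sub_one_lt_floor (-(2 * Y))
  have h5 : ((⌊2 * Y⌋ + 1 - ⌊-(2 * Y)⌋).toNat : ℝ) =
      (⌊2 * Y⌋ : ℝ) + 1 - (⌊-(2 * Y)⌋ : ℝ) := by
    have h6 : (((⌊2 * Y⌋ + 1 - ⌊-(2 * Y)⌋).toNat : ℤ) : ℝ) =
      ((⌊2 * Y⌋ + 1 - ⌊-(2 * Y)⌋).toNat : ℝ) := by norm_cast
    rw [← h6, h2]
    push_cast
    ring
  rw [h5]
  linarith

/-- the floors of the coordinates. -/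
noncomputable def Phi {E : Type} [Field E] [NumberField E] (a : 𝓞 E) (w : InfinitePlace E) :
    ℤ × ℤ :=
  (⌊2 * (w.embedding (a : E)).re⌋, ⌊2 * (w.embedding (a : E)).im⌋)

open scoped Classical in
/-- the possible values. -/
noncomputable def tt {E : Type} [Field E] [NumberField E] (Y : ℝ) (w : InfinitePlace E) :
    Finset (ℤ × ℤ) :=
  if w.IsReal then Finset.Icc ⌊-(2 * Y)⌋ ⌊2 * Y⌋ ×ˢ {0}
  else Finset.Icc ⌊-(2 * Y)⌋ ⌊2 * Y⌋ ×ˢ Finset.Icc ⌊-(2 * Y)⌋ ⌊2 * Y⌋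

theorem card_tt {E : Type} [Field E] [NumberField E] {Y : ℝ} (hY : 1 ≤ Y)
    (w : InfinitePlace E) : ((tt Y w).card : ℝ) ≤ (7 * Y) ^ w.mult := by
  classical
  have h1 := card_le hY
  unfold tt mult
  by_cases hw : w.IsReal
  · rw [if_pos hw, if_pos hw, Finset.card_product, Finset.card_singleton, mul_one, pow_one]
    exact h1
  · rw [if_neg hw, if_neg hw, Finset.card_product, pow_two]
    push_cast
    exact mul_le_mul h1 h1 (Nat.cast_nonneg _) (by linarith)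

theorem mem_tt {E : Type} [Field E] [NumberField E] {Y : ℝ} (a : 𝓞 E)
    (ha : ∀ σ : E →+* ℂ, ‖σ (a : E)‖ ≤ Y) (w : InfinitePlace E) : Phi a w ∈ tt Y w := by
  classical
  have h1 : |(w.embedding (a : E)).re| ≤ Y := (Complex.abs_re_le_norm _).trans (ha _)
  have h2 : |(w.embedding (a : E)).im| ≤ Y := (Complex.abs_im_le_norm _).trans (ha _)
  unfold tt Phi
  by_cases hw : w.IsReal
  · rw [if_pos hw, Finset.mem_product]
    refine ⟨floor_mem h1, ?_⟩
    have h3 : (w.embedding (a : E)).im = 0 := by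
      have h4 := isReal_iff.mp hw
      have h5 := ComplexEmbedding.isReal_iff.mp h4
      have h6 := RingHom.congr_fun h5 (a : E)
      rw [ComplexEmbedding.conjugate_coe_eq] at h6
      exact Complex.conj_eq_iff_im.mp h6
    simp [h3]
  · rw [if_neg hw, Finset.mem_product]
    exact ⟨floor_mem h1, floor_mem h2⟩

theorem inj_Phi {E : Type} [Field E] [NumberField E] :
    Function.Injective (Phi : 𝓞 E → InfinitePlace E → ℤ × ℤ) := by
  intro a b hab
  have h0 : a - b = 0 := by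
    refine small _ fun w => ?_
    have h1 := congrFun hab w
    unfold Phi at h1
    obtain ⟨h2, h3⟩ := Prod.mk.injEq _ _ _ _ ▸ h1
    have h4 := Int.abs_sub_lt_one_of_floor_eq_floor h2
    have h5 := Int.abs_sub_lt_one_of_floor_eq_floor h3
    rw [← norm_embedding_eq]
    have h6 : w.embedding (((a - b : 𝓞 E) : E)) = w.embedding (a : E) - w.embedding (b : E) := by
      have h7 : ((a - b : 𝓞 E) : E) = (a : E) - (b : E) := rfl
      rw [h7, map_sub]
    rw [h6]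
    set z := w.embedding (a : E)
    set z' := w.embedding (b : E)
    have h7 : ‖z - z'‖ ^ 2 < 1 := by
      rw [Complex.sq_norm, Complex.normSq_apply, Complex.sub_re, Complex.sub_im]
      have h8 := abs_lt.mp h4
      have h9 := abs_lt.mp h5
      nlinarith [h8.1, h8.2, h9.1, h9.2]
    nlinarith [norm_nonneg (z - z')]
  exact sub_eq_zero.mp h0

theorem cab : CabStmt := by
  intro E _ _ Y hY
  classical
  have hmaps : ∀ a ∈ {a : 𝓞 E | ∀ σ : E →+* ℂ, ‖σ (a : E)‖ ≤ Y},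
      Phi a ∈ ((Fintype.piFinset fun w : InfinitePlace E => tt Y w :
        Finset (InfinitePlace E → ℤ × ℤ)) : Set (InfinitePlace E → ℤ × ℤ)) := by
    intro a ha
    rw [Finset.mem_coe, Fintype.mem_piFinset]
    exact mem_tt a ha
  refine ⟨Set.Finite.of_injOn hmaps inj_Phi.injOn (Finset.finite_toSet _), ?_⟩
  have h1 := Set.ncard_le_ncard_of_injOn Phi hmaps inj_Phi.injOn (Finset.finite_toSet _)
  rw [Set.ncard_coe_finset, Fintype.card_piFinset] at h1
  calc ({a : 𝓞 E | ∀ σ : E →+* ℂ, ‖σ (a : E)‖ ≤ Y}.ncard : ℝ)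
      ≤ ((∏ w : InfinitePlace E, (tt Y w).card : ℕ) : ℝ) := by exact_mod_cast h1
    _ = ∏ w : InfinitePlace E, ((tt Y w).card : ℝ) := by push_cast; rfl
    _ ≤ ∏ w : InfinitePlace E, (7 * Y) ^ w.mult :=
        Finset.prod_le_prod (fun w _ => Nat.cast_nonneg _) fun w _ => card_tt hY w
    _ = (7 * Y) ^ Module.finrank ℚ E := by
        rw [Finset.prod_pow_eq_pow_sum, sum_mult_eq]

end Pool.Agent.LRY.H85
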